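import Pool.Agent.R280.PosFun

/-!
# Control functionals for vector capacities (MP_e24518_an, Q1: yes)

Let `E` be a Banach lattice with order continuous norm and `z ≥ 0`. There is `x* ≥ 0` in `E*` such that
`‖u‖` is small whenever `0 ≤ u ≤ z` and `x*(u)` is small. For the proof choose recursively
`u_n ∈ [0, z]` with `x*_m(u_n) = 0` for `m < n`, of almost maximal norm, and `x*_n ≥ 0` with
`x*_n(u_n) = ‖u_n‖`, `‖x*_n‖ ≤ 1`. The suprema `v_n` of `{u_k : k ≥ n}` decrease and satisfy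
`x*_n(v_n - v_{n+1}) ≥ ‖u_n‖`, so `‖u_n‖ → 0` and `x* = ∑ 2^{-n} x*_n` is strictly positive on `[0, z]`.
If `x*(u_n) ≤ 2^{-n}` and `‖u_n‖ ≥ ε`, then the suprema of the tails of `(u_n)` decrease to an element
`v` with `x*(v) = 0` and `‖v‖ ≥ ε`, a contradiction.
-/

set_option autoImplicit false

open Set Topology Filter Pool.Agent.R280.BLat Pool.Agent.R280.PosFun

universe u v

namespace Pool.Agent.Results.MP_e24518_an.ControlFunctional

/-- The Banach lattice `E` has order continuous norm: every monotone, order bounded sequence in `E`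
converges in norm. -/
def HasOrderContinuousNorm (E : Type v) [NormedAddCommGroup E] [NormedSpace ℝ E]
    [Lattice E] : Prop :=
  ∀ f : ℕ → E, (Monotone f ∨ Antitone f) → BddAbove (Set.range f) → BddBelow (Set.range f) →
    ∃ l : E, Tendsto f atTop (𝓝 l)

/-- `μ` is a capacity on the sigma-algebra of `X` with values in the positive cone of `E`:
`μ ∅ = 0` and `0 ≤ μ A ≤ μ B` for measurable sets `A ⊆ B`. (Only the values of `μ` at the measurable
sets matter.) -/
def IsCapacity {X : Type u} [MeasurableSpace X] {E : Type v} [AddCommGroup E] [Lattice E]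
    (μ : Set X → E) : Prop :=
  μ ∅ = 0 ∧ (∀ A, MeasurableSet A → 0 ≤ μ A) ∧
    ∀ A B, MeasurableSet A → MeasurableSet B → A ⊆ B → μ A ≤ μ B

/-- `μ ≪ l`: for every `ε > 0` there is `δ > 0` such that `l A < δ` implies `‖μ A‖ < ε`. -/
def IsAbsolutelyContinuous {X : Type u} [MeasurableSpace X] {E : Type v} [NormedAddCommGroup E]
    (μ : Set X → E) (l : Set X → ℝ) : Prop :=
  ∀ ε : ℝ, 0 < ε → ∃ δ : ℝ, 0 < δ ∧ ∀ A, MeasurableSet A → l A < δ → ‖μ A‖ < ε

section lattice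

variable {E : Type v} [NormedAddCommGroup E] [NormedSpace ℝ E] [Lattice E] [BanachLattice E]

/-- suprema of tails -/
lemma exists_tail_sup (hE : HasOrderContinuousNorm E) {z : E} {u : ℕ → E} (h0 : ∀ n, 0 ≤ u n)
    (h1 : ∀ n, u n ≤ z) : ∃ v : ℕ → E, (∀ n, 0 ≤ v n) ∧ (∀ n, v n ≤ z) ∧ Antitone v ∧
      (∀ n, u n ≤ v n) ∧ ∀ (f : E →L[ℝ] ℝ), (∀ x, 0 ≤ x → 0 ≤ f x) → ∀ (n : ℕ) (C : ℝ),
        (∀ m, ∑ k ∈ Finset.range m, f (u (n + k)) ≤ C) → f (v n) ≤ C := by
  set s : ℕ → ℕ → E := fun n => partialSups fun k => u (n + k) with hs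
  have hsz : ∀ n m, s n m ≤ z := fun n m => partialSups_le _ _ _ fun k _ => h1 _
  have hs0 : ∀ n m, 0 ≤ s n m := fun n m => (h0 (n + 0)).trans
    (le_partialSups_of_le (fun k => u (n + k)) (Nat.zero_le m))
  have hmono : ∀ n, Monotone (s n) := fun n => (partialSups fun k => u (n + k)).monotone
  choose v hv using fun n => hE (s n) (Or.inl (hmono n))
    ⟨z, by rintro _ ⟨m, rfl⟩; exact hsz n m⟩ ⟨0, by rintro _ ⟨m, rfl⟩; exact hs0 n m⟩
  have hle : ∀ n m, s n m ≤ v n := fun n m => (hmono n).ge_of_tendsto (hv n) m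
  refine ⟨v, fun n => (hs0 n 0).trans (hle n 0), fun n => le_of_tendsto' (hv n) (hsz n), ?_, ?_, ?_⟩
  · refine antitone_nat_of_succ_le fun n => le_of_tendsto' (hv (n + 1)) fun m => ?_
    refine partialSups_le _ _ _ fun k hk => ?_
    refine le_trans ?_ (hle n (k + 1))
    have h2 : u (n + 1 + k) = (fun k => u (n + k)) (k + 1) := by
      show u (n + 1 + k) = u (n + (k + 1))
      congr 1; ring
    show u (n + 1 + k) ≤ _
    rw [h2]
    exact le_partialSups (fun k => u (n + k)) (k + 1)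
  · intro n
    exact (le_partialSups (fun k => u (n + k)) 0).trans (hle n 0)
  · intro f hf n C hC
    have hfm : ∀ {a b : E}, a ≤ b → f a ≤ f b := by
      intro a b hab
      have := hf (b - a) (sub_nonneg.2 hab)
      rw [map_sub] at this
      linarith
    refine le_of_tendsto' ((f.continuous.tendsto (v n)).comp (hv n)) fun m => ?_
    refine le_trans ?_ (hC (m + 1))
    rw [← map_sum]
    refine hfm (partialSups_le _ _ _ fun k hk => ?_)
    exact Finset.single_le_sum (f := fun k => u (n + k)) (fun k _ => h0 _)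
      (Finset.mem_range.2 (Nat.lt_succ_of_le hk))

/-- the greedy choice -/
lemma exists_strictly_pos (hE : HasOrderContinuousNorm E) (z : E) (hz : 0 ≤ z) :
    ∃ f : E →L[ℝ] ℝ, (∀ x, 0 ≤ x → 0 ≤ f x) ∧ ∀ w, 0 ≤ w → w ≤ z → f w = 0 → w = 0 := by
  classical
  let P : Type v := {g : E →L[ℝ] ℝ // ∀ x, 0 ≤ x → 0 ≤ g x}
  have step : ∀ g : P, ∃ w : E, 0 ≤ w ∧ w ≤ z ∧ g.1 w = 0 ∧
      ∀ w', 0 ≤ w' → w' ≤ z → g.1 w' = 0 → ‖w'‖ ≤ 2 * ‖w‖ := by
    intro g
    set S : Set ℝ := {r | ∃ w : E, 0 ≤ w ∧ w ≤ z ∧ g.1 w = 0 ∧ r = ‖w‖} with hS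
    have hbdd : BddAbove S := by
      refine ⟨‖z‖, ?_⟩
      rintro _ ⟨w, h1, h2, -, rfl⟩
      exact norm_mono h1 h2
    have hne : S.Nonempty := ⟨‖(0 : E)‖, 0, le_rfl, hz, map_zero _, rfl⟩
    have hle : ∀ w', 0 ≤ w' → w' ≤ z → g.1 w' = 0 → ‖w'‖ ≤ sSup S := fun w' h1 h2 h3 =>
      le_csSup hbdd ⟨w', h1, h2, h3, rfl⟩
    by_cases h0 : sSup S ≤ 0
    · refine ⟨0, le_rfl, hz, map_zero _, fun w' h1 h2 h3 => ?_⟩
      rw [norm_zero, mul_zero]
      exact (hle w' h1 h2 h3).trans h0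
    · push Not at h0
      obtain ⟨_, ⟨w, h1, h2, h3, rfl⟩, hw⟩ := exists_lt_of_lt_csSup hne (half_lt_self h0)
      refine ⟨w, h1, h2, h3, fun w' h1' h2' h3' => ?_⟩
      have := hle w' h1' h2' h3'
      linarith
  choose w hw0 hwz hgw hmax using step
  choose F hF1 hF2 hF3 using fun g : P => exists_functional (w g) (hw0 g)
  let G : ℕ → P := fun n => Nat.rec (motive := fun _ => P) ⟨0, fun x _ => le_rfl⟩
    (fun n g => ⟨g.1 + (1 / 2 : ℝ) ^ n • F g, fun x hx =>
      add_nonneg (g.2 x hx) (mul_nonneg (by positivity) (hF1 g x hx))⟩) n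
  have hG0 : (G 0).1 = 0 := rfl
  have hGs : ∀ n, (G (n + 1)).1 = (G n).1 + (1 / 2 : ℝ) ^ n • F (G n) := fun n => rfl
  have hGsum : ∀ n, (G n).1 = ∑ k ∈ Finset.range n, (1 / 2 : ℝ) ^ k • F (G k) := by
    intro n
    induction n with
    | zero => rw [hG0, Finset.sum_range_zero]
    | succ n ih => rw [hGs, ih, Finset.sum_range_succ]
  have hFn : ∀ g, ‖F g‖ ≤ 1 := fun g =>
    ContinuousLinearMap.opNorm_le_bound _ zero_le_one fun x => by
      rw [one_mul]; exact hF3 g x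
  have hsum : Summable fun k => (1 / 2 : ℝ) ^ k • F (G k) := by
    refine Summable.of_norm_bounded (g := fun k => (1 / 2 : ℝ) ^ k)
      (summable_geometric_of_lt_one (by norm_num) (by norm_num)) fun k => ?_
    rw [norm_smul, Real.norm_of_nonneg (by positivity)]
    exact mul_le_of_le_one_right (by positivity) (hFn _)
  set f : E →L[ℝ] ℝ := ∑' k, (1 / 2 : ℝ) ^ k • F (G k) with hf
  have hfx : ∀ x, HasSum (fun k => (1 / 2 : ℝ) ^ k * F (G k) x) (f x) := by
    intro x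
    have := (ContinuousLinearMap.apply ℝ ℝ x).hasSum hsum.hasSum
    exact this
  have hpos : ∀ x, 0 ≤ x → ∀ k, 0 ≤ (1 / 2 : ℝ) ^ k * F (G k) x := fun x hx k =>
    mul_nonneg (by positivity) (hF1 _ x hx)
  refine ⟨f, fun x hx => (hfx x).nonneg (hpos x hx), ?_⟩
  intro a ha haz hfa
  -- `a` is in all kernels
  have hGa : ∀ n x, 0 ≤ x → (G n).1 x ≤ f x := by
    intro n x hx
    rw [hGsum, _root_.sum_apply]
    have := (hfx x).summable.sum_le_tsum (Finset.range n) fun k _ => hpos x hx k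
    rw [(hfx x).tsum_eq] at this
    exact this
  have h1 : ∀ n, ‖a‖ ≤ 2 * ‖w (G n)‖ := by
    intro n
    refine hmax _ a ha haz (le_antisymm ?_ ((G n).2 a ha))
    exact (hGa n a ha).trans hfa.le
  -- the norms of `w (G n)` tend to zero
  obtain ⟨v, hv0, hvz, hvanti, hwv, hvf⟩ := exists_tail_sup hE (fun n => hw0 (G n))
    (fun n => hwz (G n))
  obtain ⟨l, hl⟩ := hE v (Or.inr hvanti) ⟨z, by rintro _ ⟨m, rfl⟩; exact hvz m⟩
    ⟨0, by rintro _ ⟨m, rfl⟩; exact hv0 m⟩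
  have h2 : ∀ n k, F (G n) (w (G (n + 1 + k))) = 0 := by
    intro n k
    have e1 : (G (n + 1 + k)).1 (w (G (n + 1 + k))) = 0 := hgw _
    rw [hGsum, _root_.sum_apply] at e1
    have e2 : (1 / 2 : ℝ) ^ n * F (G n) (w (G (n + 1 + k))) ≤ 0 := by
      rw [← e1]
      exact Finset.single_le_sum (f := fun m => ((1 / 2 : ℝ) ^ m • F (G m)) (w (G (n + 1 + k))))
        (fun m _ => hpos _ (hw0 _) m) (Finset.mem_range.2 (by omega))
    have e3 := hF1 (G n) _ (hw0 (G (n + 1 + k)))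
    have e4 : (0 : ℝ) < (1 / 2 : ℝ) ^ n := by positivity
    nlinarith
  have h3 : ∀ n, ‖w (G n)‖ ≤ ‖v n - v (n + 1)‖ := by
    intro n
    have e1 : F (G n) (v (n + 1)) ≤ 0 := by
      refine hvf (F (G n)) (hF1 _) (n + 1) 0 fun m => ?_
      rw [Finset.sum_congr rfl fun k _ => h2 n k, Finset.sum_const_zero]
    have e2 : F (G n) (w (G n)) ≤ F (G n) (v n) := by
      have := hF1 (G n) (v n - w (G n)) (sub_nonneg.2 (hwv n))
      rw [map_sub] at this
      linarith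
    rw [hF2] at e2
    have e3 := (le_abs_self _).trans (hF3 (G n) (v n - v (n + 1)))
    rw [map_sub] at e3
    linarith
  have h4 : Tendsto (fun n => 2 * ‖v n - v (n + 1)‖) atTop (𝓝 (2 * ‖l - l‖)) :=
    ((hl.sub (hl.comp (tendsto_add_atTop_nat 1))).norm).const_mul 2
  rw [sub_self, norm_zero, mul_zero] at h4
  have h5 : ‖a‖ ≤ 0 := ge_of_tendsto' h4 fun n => (h1 n).trans (by
    have := h3 n
    linarith)
  exact norm_le_zero_iff.1 h5

/-- small values of a strictly positive functional -/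
lemma exists_control (hE : HasOrderContinuousNorm E) (z : E) (hz : 0 ≤ z) :
    ∃ f : E →L[ℝ] ℝ, (∀ x, 0 ≤ x → 0 ≤ f x) ∧ ∀ ε : ℝ, 0 < ε → ∃ δ : ℝ, 0 < δ ∧
      ∀ w, 0 ≤ w → w ≤ z → f w < δ → ‖w‖ < ε := by
  obtain ⟨f, hf, hs⟩ := exists_strictly_pos hE z hz
  refine ⟨f, hf, fun ε hε => ?_⟩
  by_contra hcon
  push Not at hcon
  choose u hu0 huz hfu hnu using fun n : ℕ => hcon ((1 / 2 : ℝ) ^ n) (by positivity)
  obtain ⟨v, hv0, hvz, hvanti, huv, hvf⟩ := exists_tail_sup hE hu0 huz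
  obtain ⟨l, hl⟩ := hE v (Or.inr hvanti) ⟨z, by rintro _ ⟨m, rfl⟩; exact hvz m⟩
    ⟨0, by rintro _ ⟨m, rfl⟩; exact hv0 m⟩
  have h1 : ∀ n, f (v n) ≤ (1 / 2 : ℝ) ^ n * 2 := by
    intro n
    refine hvf f hf n _ fun m => ?_
    calc ∑ k ∈ Finset.range m, f (u (n + k)) ≤ ∑ k ∈ Finset.range m, (1 / 2 : ℝ) ^ (n + k) :=
          Finset.sum_le_sum fun k _ => (hfu _).le
      _ = (1 / 2 : ℝ) ^ n * ∑ k ∈ Finset.range m, (1 / 2 : ℝ) ^ k := by
          rw [Finset.mul_sum]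
          exact Finset.sum_congr rfl fun k _ => pow_add _ _ _
      _ ≤ (1 / 2 : ℝ) ^ n * 2 := by
          refine mul_le_mul_of_nonneg_left ?_ (by positivity)
          have := (summable_geometric_of_lt_one (r := (1 / 2 : ℝ)) (by norm_num)
            (by norm_num)).sum_le_tsum (Finset.range m) fun k _ => by positivity
          rw [tsum_geometric_of_lt_one (by norm_num) (by norm_num)] at this
          norm_num at this ⊢
          exact this
  have hl0 : 0 ≤ l := ge_of_tendsto' hl hv0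
  have hlz : l ≤ z := le_of_tendsto' hl hvz
  have h2 : f l ≤ 0 := by
    have e1 : Tendsto (fun n => (1 / 2 : ℝ) ^ n * 2) atTop (𝓝 (0 * 2)) :=
      (tendsto_pow_atTop_nhds_zero_of_lt_one (by norm_num) (by norm_num)).mul_const 2
    rw [zero_mul] at e1
    exact le_of_tendsto_of_tendsto' ((f.continuous.tendsto l).comp hl) e1 h1
  have h3 : l = 0 := hs l hl0 hlz (le_antisymm h2 (hf l hl0))
  have h4 : ε ≤ ‖l‖ := ge_of_tendsto' hl.norm fun n => (hnu n).trans (norm_mono (hu0 n) (huv n))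
  rw [h3, norm_zero] at h4
  linarith

end lattice

/-- For every vector capacity `μ` with values in a Banach lattice `E` with order continuous norm
there is `x* ≥ 0` in the dual of `E` such that `x* ∘ μ` is a capacity and `μ ≪ x* ∘ μ`. -/
theorem result (X : Type u) [MeasurableSpace X] (E : Type v) [NormedAddCommGroup E]
    [NormedSpace ℝ E] [Lattice E] [BanachLattice E] (hE : HasOrderContinuousNorm E)
    (μ : Set X → E) (hμ : IsCapacity μ) :
    ∃ f : E →L[ℝ] ℝ, (∀ x, 0 ≤ x → 0 ≤ f x) ∧ IsCapacity (fun A => f (μ A)) ∧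
      IsAbsolutelyContinuous μ (fun A => f (μ A)) := by
  obtain ⟨h1, h2, h3⟩ := hμ
  obtain ⟨f, hf, hc⟩ := exists_control hE (μ univ) (h2 _ MeasurableSet.univ)
  refine ⟨f, hf, ⟨by show f (μ ∅) = 0; rw [h1, map_zero], fun A hA => hf _ (h2 A hA), fun A B hA hB hAB => ?_⟩, ?_⟩
  · have := hf (μ B - μ A) (sub_nonneg.2 (h3 A B hA hB hAB))
    rw [map_sub] at this
    linarith
  · intro ε hε
    obtain ⟨δ, hδ, hd⟩ := hc ε hε
    exact ⟨δ, hδ, fun A hA hl => hd (μ A) (h2 A hA) (h3 A univ hA MeasurableSet.univ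
      (subset_univ A)) hl⟩

end Pool.Agent.Results.MP_e24518_an.ControlFunctional
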